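import Mathlib

/-! Project QP (MP_9ee088_an): rotations of the torus `T^d` are ergodic when `1, α_1, .., α_d` are rationally independent. -/

set_option autoImplicit false
open MeasureTheory Set Filter
open scoped ENNReal ComplexConjugate

namespace Pool.Agent.Helper82.QP

section haar

noncomputable local instance (priority := 2000) msH : MeasureSpace UnitAddCircle := ⟨AddCircle.haarAddCircle⟩

local instance (priority := 2000) ahH : Measure.IsAddHaarMeasure (volume : Measure UnitAddCircle) :=
  inferInstanceAs (Measure.IsAddHaarMeasure AddCircle.haarAddCircle)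

local instance (priority := 2000) prH : IsProbabilityMeasure (volume : Measure UnitAddCircle) :=
  inferInstanceAs (IsProbabilityMeasure AddCircle.haarAddCircle)

theorem mF_add {d : Type*} [Fintype d] (n : d → ℤ) (x y : UnitAddTorus d) :
    UnitAddTorus.mFourier n (x + y) = UnitAddTorus.mFourier n x * UnitAddTorus.mFourier n y := by
  simp only [UnitAddTorus.mFourier, ContinuousMap.coe_mk, Pi.add_apply, ← Finset.prod_mul_distrib]
  refine Finset.prod_congr rfl fun i _ => ?_
  simp only [fourier_apply, smul_add, AddCircle.toCircle_add, Circle.coe_mul]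

theorem coef_zero {d : Type*} [Fintype d] (α : UnitAddTorus d) (n : d → ℤ)
    (hn : UnitAddTorus.mFourier (-n) α ≠ 1) (s : Set (UnitAddTorus d)) (hs : MeasurableSet s)
    (hinv : (fun θ => θ + α) ⁻¹' s = s) :
    ∫ t in s, UnitAddTorus.mFourier (-n) t ∂(volume : Measure (UnitAddTorus d)) = 0 := by
  have h1 : ∫ t in s, UnitAddTorus.mFourier (-n) t ∂(volume : Measure (UnitAddTorus d)) =
      ∫ t, s.indicator (fun t => UnitAddTorus.mFourier (-n) t) t ∂(volume : Measure (UnitAddTorus d)) :=
    (integral_indicator hs).symm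
  have h2 := integral_add_right_eq_self (μ := (volume : Measure (UnitAddTorus d)))
    (s.indicator (fun t => UnitAddTorus.mFourier (-n) t)) α
  have h3 : ∀ t : UnitAddTorus d, s.indicator (fun t => UnitAddTorus.mFourier (-n) t) (t + α) =
      UnitAddTorus.mFourier (-n) α * s.indicator (fun t => UnitAddTorus.mFourier (-n) t) t := by
    intro t
    by_cases ht : t ∈ s
    · have : t + α ∈ s := by rw [← hinv] at ht; exact ht
      rw [indicator_of_mem this, indicator_of_mem ht, mF_add, mul_comm]
    · have : t + α ∉ s := by rw [← hinv] at ht; exact ht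
      rw [indicator_of_notMem this, indicator_of_notMem ht, mul_zero]
  simp_rw [h3] at h2
  rw [integral_const_mul] at h2
  rw [h1]
  have h4 : (UnitAddTorus.mFourier (-n) α - 1) *
      ∫ t, s.indicator (fun t => UnitAddTorus.mFourier (-n) t) t ∂(volume : Measure (UnitAddTorus d)) = 0 := by
    rw [sub_mul, one_mul, h2, sub_self]
  rcases mul_eq_zero.1 h4 with h5 | h5
  · exact absurd (sub_eq_zero.1 h5) hn
  · exact h5

theorem core {d : Type*} [Fintype d] (α : UnitAddTorus d)
    (hα : ∀ n : d → ℤ, n ≠ 0 → UnitAddTorus.mFourier n α ≠ 1) (s : Set (UnitAddTorus d))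
    (hs : MeasurableSet s) (hinv : (fun θ => θ + α) ⁻¹' s = s) :
    (volume : Measure (UnitAddTorus d)) s = 0 ∨ (volume : Measure (UnitAddTorus d)) sᶜ = 0 := by
  classical
  set f : Lp ℂ 2 (volume : Measure (UnitAddTorus d)) := indicatorConstLp 2 hs (measure_ne_top _ _) 1 with hf
  have hfae : f =ᵐ[volume] s.indicator (fun _ => (1 : ℂ)) := indicatorConstLp_coeFn
  have hc : ∀ n : d → ℤ, UnitAddTorus.mFourierCoeff f n = ∫ t in s, UnitAddTorus.mFourier (-n) t := by
    intro n
    unfold UnitAddTorus.mFourierCoeff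
    rw [← integral_indicator hs]
    refine integral_congr_ae ?_
    filter_upwards [hfae] with t ht
    rw [ht]
    by_cases h : t ∈ s
    · rw [indicator_of_mem h, indicator_of_mem h, smul_eq_mul, mul_one]
    · rw [indicator_of_notMem h, indicator_of_notMem h, smul_zero]
  set c : ℂ := UnitAddTorus.mFourierCoeff f 0 with hcdef
  have h0 : ∀ n : d → ℤ, n ≠ 0 → UnitAddTorus.mFourierCoeff f n = 0 := by
    intro n hn
    rw [hc n]
    exact coef_zero α n (hα (-n) (neg_ne_zero.2 hn)) s hs hinv
  have hfc : f = c • UnitAddTorus.mFourierLp 2 0 := by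
    apply (UnitAddTorus.mFourierBasis (d := d)).repr.injective
    ext n
    rw [UnitAddTorus.mFourierBasis_repr]
    rw [map_smul, ← UnitAddTorus.coe_mFourierBasis, HilbertBasis.repr_self]
    by_cases hn : n = 0
    · subst hn
      simp [hcdef]
    · rw [h0 n hn]
      simp [hn]
  have hae : ∀ᵐ t ∂(volume : Measure (UnitAddTorus d)), s.indicator (fun _ => (1 : ℂ)) t = c := by
    have h1 : (c • UnitAddTorus.mFourierLp 2 0 : Lp ℂ 2 (volume : Measure (UnitAddTorus d))) =ᵐ[volume]
        fun _ => c := by
      filter_upwards [Lp.coeFn_smul c (UnitAddTorus.mFourierLp (d := d) 2 0),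
        UnitAddTorus.coeFn_mFourierLp (d := d) 2 0] with t h2 h3
      rw [h2, Pi.smul_apply, h3, UnitAddTorus.mFourier_zero, ContinuousMap.one_apply, smul_eq_mul, mul_one]
    rw [← hfc] at h1
    filter_upwards [hfae, h1] with t h2 h3
    rw [← h2, h3]
  by_contra hcon
  push Not at hcon
  obtain ⟨h1, h2⟩ := hcon
  have e1 : ∃ t ∈ s, s.indicator (fun _ => (1 : ℂ)) t = c := by
    by_contra h
    push Not at h
    exact h1 (measure_mono_null (fun t ht => h t ht) hae)
  have e2 : ∃ t ∈ sᶜ, s.indicator (fun _ => (1 : ℂ)) t = c := by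
    by_contra h
    push Not at h
    exact h2 (measure_mono_null (fun t ht => h t ht) hae)
  obtain ⟨t, ht, ht'⟩ := e1
  obtain ⟨u, hu, hu'⟩ := e2
  rw [indicator_of_mem ht] at ht'
  rw [indicator_of_notMem hu] at hu'
  exact one_ne_zero (ht'.trans hu'.symm)

end haar

/-- the rotation of `T^d` by `α` is ergodic if no nonzero character is trivial at `α` -/
theorem rot_ergodic_aux {d : Type*} [Fintype d] (α : UnitAddTorus d)
    (hα : ∀ n : d → ℤ, n ≠ 0 → UnitAddTorus.mFourier n α ≠ 1) :
    Ergodic (fun θ : UnitAddTorus d => θ + α) (Measure.pi fun _ : d => (volume : Measure UnitAddCircle)) := by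
  have hv : (volume : Measure UnitAddCircle) = AddCircle.haarAddCircle := by
    rw [AddCircle.volume_eq_smul_haarAddCircle, ENNReal.ofReal_one, one_smul]
  have hmp : MeasurePreserving (fun θ : UnitAddTorus d => θ + α)
      (Measure.pi fun _ : d => (volume : Measure UnitAddCircle))
      (Measure.pi fun _ : d => (volume : Measure UnitAddCircle)) :=
    measurePreserving_add_right _ α
  refine ⟨hmp, ⟨fun {s} hs hinv => ?_⟩⟩
  rw [hv]
  have h := core α hα s hs hinv
  rcases h with h | h
  · rw [Filter.eventuallyConst_set']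
    left
    exact ae_eq_empty.2 h
  · rw [Filter.eventuallyConst_set']
    right
    exact ae_eq_univ.2 h

/-- the rotation of `T^d` by `α` is ergodic if `1, α_1, .., α_d` are rationally independent -/
theorem rot_ergodic {d : ℕ} (α : Fin d → ℝ)
    (hα : ∀ m : Fin d → ℤ, m ≠ 0 → ∀ k : ℤ, ∑ i, (m i : ℝ) * α i ≠ k) :
    Ergodic (fun θ : Fin d → UnitAddCircle => fun i => θ i + (α i : UnitAddCircle)) volume := by
  have h := rot_ergodic_aux (d := Fin d) (fun i => (α i : UnitAddCircle)) ?_
  · exact h
  intro m hm h1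
  have h2 : UnitAddTorus.mFourier m (fun i => (α i : UnitAddCircle)) =
      Complex.exp (2 * Real.pi * Complex.I * (∑ i, (m i : ℝ) * α i : ℝ)) := by
    simp only [UnitAddTorus.mFourier, ContinuousMap.coe_mk, fourier_coe_apply]
    rw [← Complex.exp_sum]
    congr 1
    push_cast
    rw [Finset.mul_sum]
    refine Finset.sum_congr rfl fun i _ => ?_
    ring
  rw [h2, Complex.exp_eq_one_iff] at h1
  obtain ⟨k, hk⟩ := h1
  apply hα m hm k
  have h3 : (2 * Real.pi * Complex.I : ℂ) ≠ 0 := Complex.two_pi_I_ne_zero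
  have h4 : (2 * Real.pi * Complex.I : ℂ) * ((∑ i, (m i : ℝ) * α i : ℝ) : ℂ) =
      (2 * Real.pi * Complex.I : ℂ) * ((k : ℝ) : ℂ) := by
    rw [hk]
    push_cast
    ring
  have h5 := mul_left_cancel₀ h3 h4
  exact_mod_cast h5

end Pool.Agent.Helper82.QP
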