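import Mathlib
import Pool.Agent.Helper82.QP.Rot

/-! Project QP (MP_9ee088_an): the eigenfunctions of the rotation of `T^d` are the characters. -/

set_option autoImplicit false
open MeasureTheory Set Filter
open scoped ENNReal ComplexConjugate Topology

namespace Pool.Agent.Helper82.QP

section haar

noncomputable local instance (priority := 2000) msH2 : MeasureSpace UnitAddCircle := ⟨AddCircle.haarAddCircle⟩

local instance (priority := 2000) ahH2 : Measure.IsAddHaarMeasure (volume : Measure UnitAddCircle) :=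
  inferInstanceAs (Measure.IsAddHaarMeasure AddCircle.haarAddCircle)

local instance (priority := 2000) prH2 : IsProbabilityMeasure (volume : Measure UnitAddCircle) :=
  inferInstanceAs (IsProbabilityMeasure AddCircle.haarAddCircle)

theorem core_eig {d : Type*} [Fintype d] (α : UnitAddTorus d) (ξ : ℂ)
    (hα : ∀ n : d → ℤ, n ≠ 0 → UnitAddTorus.mFourier n α ≠ 1) (g : UnitAddTorus d → ℂ)
    (hg : MemLp g 2 (volume : Measure (UnitAddTorus d)))
    (hinv : ∀ᵐ θ ∂(volume : Measure (UnitAddTorus d)), g (θ + α) = ξ * g θ) :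
    (∀ᵐ θ ∂(volume : Measure (UnitAddTorus d)), g θ = 0) ∨
      ∃ m : d → ℤ, ∃ c : ℂ, UnitAddTorus.mFourier m α = ξ ∧
        ∀ᵐ θ ∂(volume : Measure (UnitAddTorus d)), g θ = c * UnitAddTorus.mFourier m θ := by
  classical
  set f : Lp ℂ 2 (volume : Measure (UnitAddTorus d)) := hg.toLp g with hf
  have hfae : f =ᵐ[volume] g := hg.coeFn_toLp
  have hc : ∀ n : d → ℤ, UnitAddTorus.mFourierCoeff f n = ∫ t, UnitAddTorus.mFourier (-n) t * g t := by
    intro n
    unfold UnitAddTorus.mFourierCoeff
    refine integral_congr_ae ?_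
    filter_upwards [hfae] with t ht
    rw [ht, smul_eq_mul]
  have key : ∀ n : d → ℤ, (UnitAddTorus.mFourier (-n) α * ξ - 1) * UnitAddTorus.mFourierCoeff f n = 0 := by
    intro n
    rw [hc n]
    have h2 := integral_add_right_eq_self (μ := (volume : Measure (UnitAddTorus d)))
      (fun t => UnitAddTorus.mFourier (-n) t * g t) α
    have h3 : ∫ t, UnitAddTorus.mFourier (-n) (t + α) * g (t + α) ∂(volume : Measure (UnitAddTorus d)) =
        (UnitAddTorus.mFourier (-n) α * ξ) * ∫ t, UnitAddTorus.mFourier (-n) t * g t := by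
      rw [← integral_const_mul]
      refine integral_congr_ae ?_
      filter_upwards [hinv] with t ht
      rw [ht, mF_add]
      ring
    rw [h3] at h2
    rw [sub_mul, one_mul, h2, sub_self]
  by_cases hall : ∀ n : d → ℤ, UnitAddTorus.mFourierCoeff f n = 0
  · left
    have hf0 : f = 0 := by
      apply (UnitAddTorus.mFourierBasis (d := d)).repr.injective
      ext n
      rw [UnitAddTorus.mFourierBasis_repr, hall n, map_zero]
      rfl
    have h1 : f =ᵐ[volume] (0 : UnitAddTorus d → ℂ) := by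
      rw [hf0]
      exact Lp.coeFn_zero _ _ _
    filter_upwards [hfae, h1] with t h2 h3
    rw [← h2, h3]
    rfl
  · right
    push Not at hall
    obtain ⟨m, hm⟩ := hall
    have e1 : UnitAddTorus.mFourier (-m) α * ξ = 1 := by
      rcases mul_eq_zero.1 (key m) with h | h
      · exact sub_eq_zero.1 h
      · exact absurd h hm
    have e2 : UnitAddTorus.mFourier m α = ξ := by
      have h1 : UnitAddTorus.mFourier m α * UnitAddTorus.mFourier (-m) α = 1 := by
        rw [← UnitAddTorus.mFourier_add, add_neg_cancel, UnitAddTorus.mFourier_zero, ContinuousMap.one_apply]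
      calc UnitAddTorus.mFourier m α = UnitAddTorus.mFourier m α * (UnitAddTorus.mFourier (-m) α * ξ) := by
            rw [e1, mul_one]
        _ = ξ := by rw [← mul_assoc, h1, one_mul]
    have h0 : ∀ n : d → ℤ, n ≠ m → UnitAddTorus.mFourierCoeff f n = 0 := by
      intro n hn
      rcases mul_eq_zero.1 (key n) with h | h
      · exfalso
        have h1 : UnitAddTorus.mFourier (-n) α * ξ = 1 := sub_eq_zero.1 h
        have h2 : UnitAddTorus.mFourier (m + -n) α = 1 := by
          rw [UnitAddTorus.mFourier_add, e2, mul_comm, h1]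
        exact hα (m + -n) (by rw [← sub_eq_add_neg]; exact sub_ne_zero.2 (Ne.symm hn)) h2
      · exact h
    set c : ℂ := UnitAddTorus.mFourierCoeff f m with hcdef
    refine ⟨m, c, e2, ?_⟩
    have hfc : f = c • UnitAddTorus.mFourierLp 2 m := by
      apply (UnitAddTorus.mFourierBasis (d := d)).repr.injective
      ext n
      rw [UnitAddTorus.mFourierBasis_repr]
      rw [map_smul, ← UnitAddTorus.coe_mFourierBasis, HilbertBasis.repr_self]
      by_cases hn : n = m
      · subst hn
        simp [hcdef]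
      · rw [h0 n hn]
        simp [hn]
    have h1 : (c • UnitAddTorus.mFourierLp 2 m : Lp ℂ 2 (volume : Measure (UnitAddTorus d))) =ᵐ[volume]
        fun t => c * UnitAddTorus.mFourier m t := by
      filter_upwards [Lp.coeFn_smul c (UnitAddTorus.mFourierLp (d := d) 2 m),
        UnitAddTorus.coeFn_mFourierLp (d := d) 2 m] with t h2 h3
      rw [h2, Pi.smul_apply, h3, smul_eq_mul]
    rw [← hfc] at h1
    filter_upwards [hfae, h1] with t h2 h3
    rw [← h2, h3]

end haar

theorem vol_haar : (volume : Measure UnitAddCircle) = AddCircle.haarAddCircle := by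
  rw [AddCircle.volume_eq_smul_haarAddCircle, ENNReal.ofReal_one, one_smul]

theorem mF_ne {d : ℕ} (α : Fin d → ℝ)
    (hα : ∀ m : Fin d → ℤ, m ≠ 0 → ∀ k : ℤ, ∑ i, (m i : ℝ) * α i ≠ k) (m : Fin d → ℤ) (hm : m ≠ 0) :
    UnitAddTorus.mFourier m (fun i => (α i : UnitAddCircle)) ≠ 1 := by
  intro h1
  have h2 : UnitAddTorus.mFourier m (fun i => (α i : UnitAddCircle)) =
      Complex.exp (2 * Real.pi * Complex.I * (∑ i, (m i : ℝ) * α i : ℝ)) := by
    simp only [UnitAddTorus.mFourier, ContinuousMap.coe_mk, fourier_coe_apply]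
    rw [← Complex.exp_sum]
    congr 1
    push_cast
    rw [Finset.mul_sum]
    refine Finset.sum_congr rfl fun i _ => ?_
    ring
  rw [h2, Complex.exp_eq_one_iff] at h1
  obtain ⟨k, hk⟩ := h1
  apply hα m hm k
  have h3 : (2 * Real.pi * Complex.I : ℂ) ≠ 0 := Complex.two_pi_I_ne_zero
  have h4 : (2 * Real.pi * Complex.I : ℂ) * ((∑ i, (m i : ℝ) * α i : ℝ) : ℂ) =
      (2 * Real.pi * Complex.I : ℂ) * ((k : ℝ) : ℂ) := by
    rw [hk]
    push_cast
    ring
  have h5 := mul_left_cancel₀ h3 h4
  exact_mod_cast h5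

/-- the modulus of an eigenvalue of a measure preserving map is one -/
theorem norm_one {X : Type*} [MeasurableSpace X] {μ : Measure X} [IsProbabilityMeasure μ] {T : X → X}
    (hT : MeasurePreserving T μ μ) (g : X → ℝ) (hg : Measurable g) (r : ℝ) (hr : 0 < r)
    (hpos : ∀ᵐ x ∂μ, 0 < g x) (hinv : ∀ᵐ x ∂μ, g (T x) = r * g x) : r = 1 := by
  have step : ∀ c : ℝ, μ {x | g x ≤ c} = μ {x | g x ≤ c / r} := by
    intro c
    have h1 : MeasurableSet {x | g x ≤ c} := measurableSet_le hg measurable_const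
    have h2 := hT.measure_preimage h1.nullMeasurableSet
    rw [← h2]
    refine measure_congr ?_
    have : (fun x => (g (T x) ≤ c : Prop)) =ᵐ[μ] fun x => (g x ≤ c / r : Prop) := by
      filter_upwards [hinv] with x hx
      rw [hx, le_div_iff₀ hr, mul_comm]
    exact this
  have iter : ∀ (n : ℕ) (c : ℝ), μ {x | g x ≤ c} = μ {x | g x ≤ c / r ^ n} := by
    intro n
    induction n with
    | zero => intro c; simp
    | succ n ih =>
      intro c
      rw [step c, ih (c / r), div_div, pow_succ, mul_comm r]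
  rcases lt_trichotomy r 1 with h | h | h
  · exfalso
    -- all the mass is at every level
    have h1 : ∀ c : ℝ, 0 < c → μ {x | g x ≤ c} = 1 := by
      intro c hc
      have h2 : Tendsto (fun n : ℕ => μ {x | g x ≤ c / r ^ n}) atTop (𝓝 (μ (⋃ n : ℕ, {x | g x ≤ c / r ^ n}))) := by
        refine tendsto_measure_iUnion_atTop fun n m hnm x hx => ?_
        simp only [Set.mem_ofPred_eq] at hx ⊢
        refine hx.trans ?_
        gcongr 1
        exact pow_le_pow_of_le_one hr.le h.le hnm
      have h3 : (⋃ n : ℕ, {x | g x ≤ c / r ^ n}) = univ := by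
        refine eq_univ_of_forall fun x => ?_
        rw [mem_iUnion]
        have h4 : Tendsto (fun n : ℕ => c / r ^ n) atTop atTop := by
          have h5 := tendsto_pow_atTop_nhds_zero_of_lt_one hr.le h
          have h6 : Tendsto (fun n : ℕ => r ^ n) atTop (𝓝[>] 0) :=
            tendsto_nhdsWithin_iff.2 ⟨h5, Eventually.of_forall fun n => pow_pos hr n⟩
          exact (tendsto_inv_nhdsGT_zero.comp h6).const_mul_atTop hc
        obtain ⟨n, hn⟩ := (h4.eventually_ge_atTop (g x)).exists
        exact ⟨n, hn⟩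
      rw [h3, measure_univ] at h2
      have h4 : (fun n : ℕ => μ {x | g x ≤ c / r ^ n}) = fun _ => μ {x | g x ≤ c} := by
        funext n
        rw [← iter n c]
      rw [h4] at h2
      exact tendsto_nhds_unique tendsto_const_nhds h2
    have h2 : Tendsto (fun n : ℕ => μ {x | g x ≤ 1 / ((n : ℝ) + 1)}) atTop
        (𝓝 (μ (⋂ n : ℕ, {x | g x ≤ 1 / ((n : ℝ) + 1)}))) := by
      refine tendsto_measure_iInter_atTop (fun n => (measurableSet_le hg measurable_const).nullMeasurableSet)
        (fun n m hnm x hx => ?_) ⟨0, measure_ne_top _ _⟩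
      simp only [Set.mem_ofPred_eq] at hx ⊢
      refine hx.trans ?_
      gcongr
    have h3 : μ (⋂ n : ℕ, {x | g x ≤ 1 / ((n : ℝ) + 1)}) = 0 := by
      refine measure_mono_null (t := {x | ¬ 0 < g x}) (fun x hx => ?_) hpos
      simp only [mem_iInter, Set.mem_ofPred_eq] at hx ⊢
      intro h0
      obtain ⟨n, hn⟩ := exists_nat_one_div_lt h0
      exact absurd (hx n) (not_le.2 hn)
    rw [h3] at h2
    have h4 : (fun n : ℕ => μ {x | g x ≤ 1 / ((n : ℝ) + 1)}) = fun _ => 1 := by
      funext n
      exact h1 _ (by positivity)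
    rw [h4] at h2
    exact one_ne_zero (tendsto_nhds_unique tendsto_const_nhds h2)
  · exact h
  · exfalso
    have h1 : ∀ c : ℝ, 0 < c → μ {x | g x ≤ c} = 0 := by
      intro c hc
      have h2 : Tendsto (fun n : ℕ => μ {x | g x ≤ c / r ^ n}) atTop (𝓝 (μ (⋂ n : ℕ, {x | g x ≤ c / r ^ n}))) := by
        refine tendsto_measure_iInter_atTop (fun n => (measurableSet_le hg measurable_const).nullMeasurableSet)
          (fun n m hnm x hx => ?_) ⟨0, measure_ne_top _ _⟩
        simp only [Set.mem_ofPred_eq] at hx ⊢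
        refine hx.trans ?_
        gcongr 1
        exact pow_le_pow_right₀ h.le hnm
      have h3 : μ (⋂ n : ℕ, {x | g x ≤ c / r ^ n}) = 0 := by
        refine measure_mono_null (t := {x | ¬ 0 < g x}) (fun x hx => ?_) hpos
        simp only [mem_iInter, Set.mem_ofPred_eq] at hx ⊢
        intro h0
        have h4 : Tendsto (fun n : ℕ => c / r ^ n) atTop (𝓝 0) := by
          have h5 := tendsto_pow_atTop_atTop_of_one_lt h
          have h6 := h5.const_div_atTop c
          exact h6
        obtain ⟨n, hn⟩ := (h4.eventually_lt_const h0).exists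
        exact absurd (hx n) (not_le.2 hn)
      rw [h3] at h2
      have h4 : (fun n : ℕ => μ {x | g x ≤ c / r ^ n}) = fun _ => μ {x | g x ≤ c} := by
        funext n
        rw [← iter n c]
      rw [h4] at h2
      exact tendsto_nhds_unique tendsto_const_nhds h2
    have h2 : Tendsto (fun n : ℕ => μ {x | g x ≤ (n : ℝ) + 1}) atTop
        (𝓝 (μ (⋃ n : ℕ, {x | g x ≤ (n : ℝ) + 1}))) := by
      refine tendsto_measure_iUnion_atTop fun n m hnm x hx => ?_
      simp only [Set.mem_ofPred_eq] at hx ⊢
      refine hx.trans ?_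
      gcongr
    have h3 : (⋃ n : ℕ, {x | g x ≤ (n : ℝ) + 1}) = univ := by
      refine eq_univ_of_forall fun x => ?_
      rw [mem_iUnion]
      obtain ⟨n, hn⟩ := exists_nat_ge (g x)
      exact ⟨n, by simp only [Set.mem_ofPred_eq]; linarith⟩
    rw [h3, measure_univ] at h2
    have h4 : (fun n : ℕ => μ {x | g x ≤ (n : ℝ) + 1}) = fun _ => 0 := by
      funext n
      exact h1 _ (by positivity)
    rw [h4] at h2
    exact zero_ne_one (tendsto_nhds_unique tendsto_const_nhds h2)

/-- a measurable eigenfunction of a rotation of `T^d` at which no nonzero character is trivial is zero or a multiple of a character -/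
theorem rot_eig_aux {d : ℕ} (α : Fin d → UnitAddCircle)
    (hα : ∀ n : Fin d → ℤ, n ≠ 0 → UnitAddTorus.mFourier n α ≠ 1) (ξ : ℂ)
    (g : (Fin d → UnitAddCircle) → ℂ) (hg : Measurable g)
    (hinv : ∀ᵐ θ : Fin d → UnitAddCircle, g (θ + α) = ξ * g θ) :
    (∀ᵐ θ : Fin d → UnitAddCircle, g θ = 0) ∨ ∃ m : Fin d → ℤ, ∃ c : ℂ,
      UnitAddTorus.mFourier m α = ξ ∧
        ∀ᵐ θ : Fin d → UnitAddCircle, g θ = c * UnitAddTorus.mFourier m θ := by
  have herg : Ergodic (fun θ : Fin d → UnitAddCircle => θ + α) volume := rot_ergodic_aux (d := Fin d) α hα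
  set T : (Fin d → UnitAddCircle) → (Fin d → UnitAddCircle) := fun θ => θ + α with hT
  by_cases h0 : ∀ᵐ θ : Fin d → UnitAddCircle, g θ = 0
  · exact Or.inl h0
  right
  -- the set where `g = 0` is invariant
  have hcases : ∀ᵐ θ : Fin d → UnitAddCircle, g θ ≠ 0 := by
    by_cases hξ : ξ = 0
    · exfalso
      apply h0
      have h1 : ∀ᵐ θ : Fin d → UnitAddCircle, g (T θ) = 0 := by
        filter_upwards [hinv] with θ hθ
        rw [hθ, hξ, zero_mul]
      have h2 : MeasurableSet {θ : Fin d → UnitAddCircle | g θ = 0} := hg (measurableSet_singleton 0)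
      have h3 := herg.toMeasurePreserving.measure_preimage h2.compl.nullMeasurableSet
      rw [ae_iff] at h1 ⊢
      rw [← h1]
      exact h3.symm
    · have h1 : (fun θ => (g (T θ) = 0 : Prop)) =ᵐ[volume] fun θ => (g θ = 0 : Prop) := by
        filter_upwards [hinv] with θ hθ
        rw [hθ]
        simp [hξ]
      have h2 : MeasurableSet {θ : Fin d → UnitAddCircle | g θ = 0} := hg (measurableSet_singleton 0)
      have h3 : T ⁻¹' {θ : Fin d → UnitAddCircle | g θ = 0} =ᵐ[volume] {θ : Fin d → UnitAddCircle | g θ = 0} := h1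
      rcases herg.quasiErgodic.ae_empty_or_univ₀ h2.nullMeasurableSet h3 with h4 | h4
      · have := ae_eq_empty.1 h4
        rw [ae_iff]
        simpa using this
      · exfalso
        apply h0
        have := ae_eq_univ.1 h4
        rw [ae_iff]
        exact this
  -- `|ξ| = 1`
  have hξ0 : ξ ≠ 0 := by
    intro hξ
    have h1 : ∀ᵐ θ : Fin d → UnitAddCircle, g (T θ) ≠ 0 := herg.toMeasurePreserving.quasiMeasurePreserving.ae hcases
    obtain ⟨θ, h2, h3⟩ := (h1.and hinv).exists
    apply h2
    show g (T θ) = 0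
    rw [h3, hξ, zero_mul]
  have hpr : IsProbabilityMeasure (volume : Measure (Fin d → UnitAddCircle)) := by
    have : IsProbabilityMeasure (volume : Measure UnitAddCircle) := by
      rw [vol_haar]; infer_instance
    infer_instance
  have h1 : ‖ξ‖ = 1 := by
    refine norm_one herg.toMeasurePreserving (fun θ => ‖g θ‖) hg.norm ‖ξ‖ (norm_pos_iff.2 hξ0) ?_ ?_
    · filter_upwards [hcases] with θ hθ
      exact norm_pos_iff.2 hθ
    · filter_upwards [hinv] with θ hθ
      rw [hθ, norm_mul]
  have h2 : (fun θ => ‖g θ‖) ∘ T =ᵐ[volume] fun θ => ‖g θ‖ := by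
    filter_upwards [hinv] with θ hθ
    show ‖g (T θ)‖ = ‖g θ‖
    rw [hθ, norm_mul, h1, one_mul]
  obtain ⟨B, hB⟩ := herg.ae_eq_const_of_ae_eq_comp_ae hg.norm.aestronglyMeasurable h2
  have hmem : MemLp g 2 (volume : Measure (Fin d → UnitAddCircle)) := by
    refine MemLp.of_bound hg.aestronglyMeasurable B ?_
    filter_upwards [hB] with θ hθ
    exact (show ‖g θ‖ = B from hθ).le
  have hvv : (volume : Measure (Fin d → UnitAddCircle)) = Measure.pi fun _ : Fin d => AddCircle.haarAddCircle := by
    show Measure.pi (fun _ : Fin d => (volume : Measure UnitAddCircle)) = _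
    rw [vol_haar]
  rw [hvv] at hmem h0 hinv
  rw [hvv]
  rcases core_eig (d := Fin d) α ξ hα g hmem hinv with h3 | ⟨m, c, h3, h4⟩
  · exact absurd h3 h0
  · exact ⟨m, c, h3, h4⟩

/-- a measurable eigenfunction of the rotation by `α` (independent `1, α_1, .., α_d`) is zero or a multiple of a character -/
theorem rot_eigen {d : ℕ} (α : Fin d → ℝ)
    (hα : ∀ m : Fin d → ℤ, m ≠ 0 → ∀ k : ℤ, ∑ i, (m i : ℝ) * α i ≠ k) (ξ : ℂ)
    (g : (Fin d → UnitAddCircle) → ℂ) (hg : Measurable g)
    (hinv : ∀ᵐ θ : Fin d → UnitAddCircle, g (fun i => θ i + (α i : UnitAddCircle)) = ξ * g θ) :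
    (∀ᵐ θ : Fin d → UnitAddCircle, g θ = 0) ∨ ∃ m : Fin d → ℤ, ∃ c : ℂ,
      Complex.exp (2 * Real.pi * Complex.I * (∑ i, (m i : ℝ) * α i : ℝ)) = ξ ∧
        ∀ᵐ θ : Fin d → UnitAddCircle, g θ = c * ∏ i, fourier (m i) (θ i) := by
  rcases rot_eig_aux (fun i => (α i : UnitAddCircle)) (mF_ne α hα) ξ g hg hinv with h3 | ⟨m, c, h3, h4⟩
  · exact Or.inl h3
  · refine Or.inr ⟨m, c, ?_, h4⟩
    rw [← h3]
    simp only [UnitAddTorus.mFourier, ContinuousMap.coe_mk, fourier_coe_apply]
    rw [← Complex.exp_sum]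
    congr 1
    push_cast
    rw [Finset.mul_sum]
    refine Finset.sum_congr rfl fun i _ => ?_
    ring

end Pool.Agent.Helper82.QP
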