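import Mathlib

/-! Project QP (MP_9ee088_an): almost every frequency vector has well separated orbits and is rationally independent. -/

set_option autoImplicit false
open MeasureTheory Set Filter
open scoped ENNReal Topology

namespace Pool.Agent.Helper82.QP

/-- the points of `[-R, R]` whose `k`-fold is close to an integer -/
theorem vol_near (R : ℕ) (k : ℕ) (hk : 1 ≤ k) (δ : ℝ) (hδ : 0 ≤ δ) :
    volume {x : ℝ | |x| ≤ R ∧ ∃ p : ℤ, |k * x - p| < δ} ≤ ENNReal.ofReal ((4 * R + 6 + 4 * δ) * δ) := by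
  have hk0 : (0 : ℝ) < k := by exact_mod_cast hk
  have hk1 : (1 : ℝ) ≤ k := by exact_mod_cast hk
  set M : ℤ := ⌈(k : ℝ) * R + δ⌉ with hM
  have hsub : {x : ℝ | |x| ≤ R ∧ ∃ p : ℤ, |k * x - p| < δ} ⊆
      ⋃ p ∈ Finset.Icc (-M) M, Metric.ball ((p : ℝ) / k) (δ / k) := by
    rintro x ⟨hx, p, hp⟩
    have h1 : |(p : ℝ)| ≤ k * R + δ := by
      have h2 : |(p : ℝ)| ≤ |k * x| + |k * x - p| := by
        have := abs_sub_abs_le_abs_sub (p : ℝ) (k * x)
        rw [abs_sub_comm] at this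
        linarith
      rw [abs_mul, Nat.abs_cast] at h2
      have h3 : (k : ℝ) * |x| ≤ k * R := mul_le_mul_of_nonneg_left hx hk0.le
      linarith
    have h2 : |(p : ℝ)| ≤ M := h1.trans (Int.le_ceil _)
    rw [abs_le] at h2
    simp only [Finset.mem_Icc, mem_iUnion, Metric.mem_ball]
    refine ⟨p, ⟨by exact_mod_cast h2.1, by exact_mod_cast h2.2⟩, ?_⟩
    rw [Real.dist_eq, lt_div_iff₀ hk0]
    calc |x - p / k| * k = |x - p / k| * |(k : ℝ)| := by rw [Nat.abs_cast]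
      _ = |k * x - p| := by rw [← abs_mul]; congr 1; field_simp
      _ < δ := hp
  have hM0 : 0 ≤ M := Int.ceil_nonneg (by positivity)
  have hcard : ((Finset.Icc (-M) M).card : ℝ) ≤ 2 * (k * R + δ + 1) + 1 := by
    rw [Int.card_Icc]
    have h1 : ((M + 1 - -M).toNat : ℤ) = 2 * M + 1 := by
      rw [Int.toNat_of_nonneg (by omega)]
      ring
    have h2 : ((M + 1 - -M).toNat : ℝ) = 2 * M + 1 := by exact_mod_cast h1
    rw [h2]
    have h3 : (M : ℝ) < k * R + δ + 1 := Int.ceil_lt_add_one _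
    linarith
  calc volume {x : ℝ | |x| ≤ R ∧ ∃ p : ℤ, |k * x - p| < δ}
      ≤ volume (⋃ p ∈ Finset.Icc (-M) M, Metric.ball ((p : ℝ) / k) (δ / k)) := measure_mono hsub
    _ ≤ ∑ p ∈ Finset.Icc (-M) M, volume (Metric.ball ((p : ℝ) / k) (δ / k)) := measure_biUnion_finset_le _ _
    _ = ((Finset.Icc (-M) M).card : ℝ≥0∞) * ENNReal.ofReal (2 * (δ / k)) := by
        simp only [Real.volume_ball, Finset.sum_const, nsmul_eq_mul]
    _ = ENNReal.ofReal ((Finset.Icc (-M) M).card * (2 * (δ / k))) := by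
        rw [ENNReal.ofReal_mul (Nat.cast_nonneg _), ENNReal.ofReal_natCast]
    _ ≤ ENNReal.ofReal ((4 * R + 6 + 4 * δ) * δ) := by
        apply ENNReal.ofReal_le_ofReal
        calc ((Finset.Icc (-M) M).card : ℝ) * (2 * (δ / k)) ≤ (2 * (k * R + δ + 1) + 1) * (2 * (δ / k)) := by
              gcongr
          _ = (4 * R + (4 * δ + 6) / k) * δ := by field_simp; ring
          _ ≤ (4 * R + (4 * δ + 6)) * δ := by
              gcongr
              exact div_le_self (by positivity) hk1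
          _ = (4 * R + 6 + 4 * δ) * δ := by ring

theorem ae_ev (d : ℕ) (R : ℕ) (τ : ℝ) (hτ : 1 < d * τ) (hτ0 : 0 < τ) :
    ∀ᵐ α : Fin d → ℝ, (∀ i, |α i| ≤ R) → ∀ᶠ k : ℕ in atTop, ∃ i, ∀ p : ℤ, (k : ℝ) ^ (-τ) ≤ |k * α i - p| := by
  set C : ℝ := 4 * R + 10 with hC
  have hC0 : 0 < C := by positivity
  set s : ℕ → Set (Fin d → ℝ) := fun k =>
    {α | (1 ≤ k) ∧ ∀ i, |α i| ≤ R ∧ ∃ p : ℤ, |k * α i - p| < (k : ℝ) ^ (-τ)} with hs
  have hbound : ∀ k : ℕ, volume (s k) ≤ ENNReal.ofReal (C ^ d * ((k : ℝ) ^ (d * τ))⁻¹) := by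
    intro k
    by_cases hk : 1 ≤ k
    · have hk1 : (1 : ℝ) ≤ k := by exact_mod_cast hk
      have h1 : s k ⊆ Set.pi univ fun _ : Fin d => {x : ℝ | |x| ≤ R ∧ ∃ p : ℤ, |k * x - p| < (k : ℝ) ^ (-τ)} := by
        rintro α ⟨_, hα⟩ i _
        exact hα i
      have h2 : (k : ℝ) ^ (-τ) ≤ 1 := Real.rpow_le_one_of_one_le_of_nonpos hk1 (by linarith)
      have h3 : 0 ≤ (k : ℝ) ^ (-τ) := by positivity
      calc volume (s k) ≤ volume (Set.pi univ fun _ : Fin d =>
            {x : ℝ | |x| ≤ R ∧ ∃ p : ℤ, |k * x - p| < (k : ℝ) ^ (-τ)}) := measure_mono h1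
        _ = ∏ _i : Fin d, volume {x : ℝ | |x| ≤ R ∧ ∃ p : ℤ, |k * x - p| < (k : ℝ) ^ (-τ)} := volume_pi_pi _
        _ ≤ ∏ _i : Fin d, ENNReal.ofReal (C * (k : ℝ) ^ (-τ)) := by
            refine Finset.prod_le_prod' fun i _ => ?_
            refine (vol_near R k hk _ h3).trans (ENNReal.ofReal_le_ofReal ?_)
            gcongr
            rw [hC]
            linarith
        _ = ENNReal.ofReal (C ^ d * ((k : ℝ) ^ (d * τ))⁻¹) := by
            rw [Finset.prod_const, Finset.card_univ, Fintype.card_fin, ← ENNReal.ofReal_pow (by positivity), mul_pow]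
            congr 2
            rw [← Real.rpow_natCast, ← Real.rpow_mul (by positivity), ← Real.rpow_neg (by positivity)]
            congr 1
            ring
    · have : s k = ∅ := by
        ext α
        simp [hs, hk]
      rw [this, measure_empty]
      exact zero_le
  have hsum : ∑' k, volume (s k) ≠ ∞ := by
    have h1 : Summable fun k : ℕ => C ^ d * ((k : ℝ) ^ (d * τ))⁻¹ :=
      (Real.summable_nat_rpow_inv.2 hτ).mul_left _
    have h2 := h1.tsum_ofReal_ne_top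
    exact ne_top_of_le_ne_top h2 (ENNReal.tsum_le_tsum hbound)
  have hae := ae_eventually_notMem hsum
  filter_upwards [hae] with α hα hR
  filter_upwards [hα, eventually_ge_atTop 1] with k hk hk1
  by_contra hcon
  push Not at hcon
  exact hk ⟨hk1, fun i => ⟨hR i, hcon i⟩⟩

theorem ae_indep (d : ℕ) : ∀ᵐ α : Fin d → ℝ, ∀ m : Fin d → ℤ, m ≠ 0 → ∀ k : ℤ, ∑ i, (m i : ℝ) * α i ≠ k := by
  rw [ae_all_iff]
  intro m
  by_cases hm : m = 0
  · exact Eventually.of_forall fun α h => absurd hm h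
  have h1 : ∀ k : ℤ, ∀ᵐ α : Fin d → ℝ, ∑ i, (m i : ℝ) * α i ≠ k := by
    intro k
    set L : (Fin d → ℝ) →ₗ[ℝ] ℝ := ∑ i, (m i : ℝ) • LinearMap.proj i with hL
    have hLe : ∀ α, L α = ∑ i, (m i : ℝ) * α i := by
      intro α
      simp [hL]
    by_cases hne : ∃ α₀ : Fin d → ℝ, L α₀ = k
    · obtain ⟨α₀, hα₀⟩ := hne
      have h2 : {α : Fin d → ℝ | ¬ (∑ i, (m i : ℝ) * α i ≠ k)} ⊆ (AffineSubspace.mk' α₀ (LinearMap.ker L) : Set (Fin d → ℝ)) := by
        intro α hα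
        simp only [ne_eq, not_not, Set.mem_ofPred_eq] at hα
        rw [SetLike.mem_coe, AffineSubspace.mem_mk', LinearMap.mem_ker, vsub_eq_sub, map_sub, hLe α, hα, hα₀, sub_self]
      have h3 : AffineSubspace.mk' α₀ (LinearMap.ker L) ≠ ⊤ := by
        intro h
        obtain ⟨i, hi⟩ := Function.ne_iff.1 hm
        have h4 : (α₀ + Pi.single i 1) ∈ AffineSubspace.mk' α₀ (LinearMap.ker L) := by rw [h]; trivial
        rw [AffineSubspace.mem_mk', LinearMap.mem_ker, vsub_eq_sub, add_sub_cancel_left, hLe] at h4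
        have h5 : ∑ j, (m j : ℝ) * (Pi.single i (1 : ℝ) : Fin d → ℝ) j = m i := by
          rw [Finset.sum_eq_single i]
          · simp
          · intro j _ hj
            simp [hj]
          · simp
        rw [h5] at h4
        exact hi (by exact_mod_cast h4)
      exact measure_mono_null h2 (Measure.addHaar_affineSubspace volume _ h3)
    · push Not at hne
      exact Eventually.of_forall fun α h => hne α ((hLe α).trans h)
  filter_upwards [ae_all_iff.2 h1] with α hα _ k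
  exact hα k

theorem small_k (α : ℝ) (hα : ∀ m : ℤ, m ≠ 0 → ∀ k : ℤ, (m : ℝ) * α ≠ k) (K : ℕ) :
    ∃ c : ℝ, 0 < c ∧ ∀ k : ℕ, 1 ≤ k → k < K → ∀ p : ℤ, c ≤ |k * α - p| := by
  induction K with
  | zero => exact ⟨1, one_pos, fun k _ hk => absurd hk (Nat.not_lt_zero _)⟩
  | succ K ih =>
    obtain ⟨c, hc, h⟩ := ih
    by_cases hK : 1 ≤ K
    · have h1 : 0 < |(K : ℝ) * α - round ((K : ℝ) * α)| := by
        rw [abs_pos, sub_ne_zero]
        have := hα K (by omega) (round ((K : ℝ) * α))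
        simpa using this
      refine ⟨min c |(K : ℝ) * α - round ((K : ℝ) * α)|, lt_min hc h1, fun k hk hk' p => ?_⟩
      rcases Nat.lt_succ_iff_lt_or_eq.1 hk' with h2 | h2
      · exact (min_le_left _ _).trans (h k hk h2 p)
      · subst h2
        exact (min_le_right _ _).trans (round_le _ p)
    · refine ⟨c, hc, fun k hk hk' p => ?_⟩
      exact absurd hk' (by omega)

/-- for almost every frequency vector the orbits of the rotation of `T^d` are `k^(-τ)`-separated, for every `τ > 1/d` -/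
theorem ae_sep (d : ℕ) (hd : 1 ≤ d) : ∀ᵐ α : Fin d → ℝ, ∀ τ : ℝ, 1 / (d : ℝ) < τ →
    ∃ c : ℝ, 0 < c ∧ ∀ k : ℕ, 1 ≤ k → ∃ i, ∀ p : ℤ, c * (k : ℝ) ^ (-τ) ≤ |k * α i - p| := by
  have hd0 : (0 : ℝ) < d := by exact_mod_cast hd
  have h1 : ∀ᵐ α : Fin d → ℝ, ∀ R : ℕ, ∀ q : ℚ, 1 / (d : ℝ) < q → (∀ i, |α i| ≤ R) →
      ∀ᶠ k : ℕ in atTop, ∃ i, ∀ p : ℤ, (k : ℝ) ^ (-(q : ℝ)) ≤ |k * α i - p| := by
    rw [ae_all_iff]
    intro R
    rw [ae_all_iff]
    intro q
    by_cases hq : 1 / (d : ℝ) < q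
    · have hq0 : (0 : ℝ) < q := lt_trans (by positivity) hq
      have hq1 : 1 < (d : ℝ) * q := by
        rw [div_lt_iff₀ hd0] at hq
        linarith
      filter_upwards [ae_ev d R q hq1 hq0] with α hα _
      exact hα
    · exact Eventually.of_forall fun α h => absurd h hq
  filter_upwards [h1, ae_indep d] with α h2 h3 τ hτ
  obtain ⟨q, hq1, hq2⟩ := exists_rat_btwn hτ
  obtain ⟨R, hR⟩ : ∃ R : ℕ, ∀ i, |α i| ≤ R := by
    obtain ⟨R, hR⟩ := exists_nat_ge (∑ i, |α i|)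
    exact ⟨R, fun i => (Finset.single_le_sum (f := fun i => |α i|) (fun j _ => abs_nonneg _) (Finset.mem_univ i)).trans hR⟩
  obtain ⟨K, hK⟩ := eventually_atTop.1 (h2 R q hq1 hR)
  have hd' : Nonempty (Fin d) := ⟨⟨0, hd⟩⟩
  set i₀ : Fin d := ⟨0, hd⟩ with hi₀
  have h4 : ∀ m : ℤ, m ≠ 0 → ∀ k : ℤ, (m : ℝ) * α i₀ ≠ k := by
    intro m hm k hk
    apply h3 (Pi.single i₀ m) (by simpa using hm) k
    rw [Finset.sum_eq_single i₀]
    · simpa using hk
    · intro j _ hj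
      simp [hj]
    · simp
  obtain ⟨c, hc, h5⟩ := small_k (α i₀) h4 K
  have hτ0 : 0 < τ := lt_trans (by positivity) hτ
  refine ⟨min c 1, lt_min hc one_pos, fun k hk => ?_⟩
  have hk1 : (1 : ℝ) ≤ k := by exact_mod_cast hk
  have h6 : (k : ℝ) ^ (-τ) ≤ 1 := Real.rpow_le_one_of_one_le_of_nonpos hk1 (by linarith)
  have h7 : 0 < (k : ℝ) ^ (-τ) := by positivity
  by_cases hkK : k < K
  · refine ⟨i₀, fun p => ?_⟩
    calc min c 1 * (k : ℝ) ^ (-τ) ≤ c * 1 := by
          apply mul_le_mul (min_le_left _ _) h6 h7.le hc.le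
      _ = c := mul_one c
      _ ≤ |k * α i₀ - p| := h5 k hk hkK p
  · obtain ⟨i, hi⟩ := hK k (not_lt.1 hkK)
    refine ⟨i, fun p => ?_⟩
    calc min c 1 * (k : ℝ) ^ (-τ) ≤ 1 * (k : ℝ) ^ (-(q : ℝ)) := by
          apply mul_le_mul (min_le_right _ _) _ h7.le zero_le_one
          exact Real.rpow_le_rpow_of_exponent_le hk1 (by linarith)
      _ = (k : ℝ) ^ (-(q : ℝ)) := one_mul _
      _ ≤ |k * α i - p| := hi p

end Pool.Agent.Helper82.QP
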