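import Mathlib
import Pool.Agent.Helper82.QP.Rot
import Pool.Agent.Helper82.QP.Sep
import Pool.Agent.Helper82.QP.Eig

/-! Project QP (MP_9ee088_an): the arithmetic of the base in the torus form. -/

set_option autoImplicit false
open MeasureTheory Set Filter
open scoped ENNReal Topology

namespace Pool.Agent.Helper82.QP

/-- representative in `(0, 1]` -/
noncomputable def rpt (x : UnitAddCircle) : ℝ := (AddCircle.equivIoc (1 : ℝ) 0 x : ℝ)

theorem coe_rpt (x : UnitAddCircle) : ((rpt x : ℝ) : UnitAddCircle) = x :=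
  (AddCircle.equivIoc (1 : ℝ) 0).symm_apply_apply x

theorem rpt_mp : MeasurePreserving rpt (volume : Measure UnitAddCircle)
    ((volume : Measure ℝ).restrict (Ioc (0 : ℝ) (0 + 1))) :=
  (measurePreserving_subtype_coe measurableSet_Ioc).comp (AddCircle.measurePreserving_equivIoc (1 : ℝ))

theorem rpt_qmp (d : ℕ) : Measure.QuasiMeasurePreserving
    (fun (α : Fin d → UnitAddCircle) => fun i => rpt (α i)) volume volume := by
  have h1 := measurePreserving_pi (fun _ : Fin d => (volume : Measure UnitAddCircle))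
    (fun _ : Fin d => (volume : Measure ℝ).restrict (Ioc (0 : ℝ) (0 + 1))) (fun _ => rpt_mp)
  refine ⟨h1.measurable, ?_⟩
  have h2 : Measure.map (fun (α : Fin d → UnitAddCircle) => fun i => rpt (α i)) volume =
      Measure.pi (fun _ : Fin d => (volume : Measure ℝ).restrict (Ioc (0 : ℝ) (0 + 1))) := h1.map_eq
  rw [h2, ← Measure.restrict_pi_pi]
  exact Measure.restrict_le_self.absolutelyContinuous

theorem dio_ae {d : ℕ} (hd : 0 < d) : ∀ᵐ α : Fin d → UnitAddCircle, ∀ τ : ℝ, 1 / (d : ℝ) < τ →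
    ∃ c : ℝ, 0 < c ∧ ∀ k : ℕ, 1 ≤ k → c * (k : ℝ) ^ (-τ) ≤ ‖k • α‖ := by
  filter_upwards [(rpt_qmp d).ae (ae_sep d hd)] with α hα τ hτ
  obtain ⟨c, hc, h⟩ := hα τ hτ
  refine ⟨c, hc, fun k hk => ?_⟩
  obtain ⟨i, hi⟩ := h k hk
  have h1 : ‖(k • α) i‖ = |(k : ℝ) * rpt (α i) - round ((k : ℝ) * rpt (α i))| := by
    rw [← UnitAddCircle.norm_eq]
    congr 1
    rw [Pi.smul_apply]
    conv_lhs => rw [← coe_rpt (α i)]
    rw [← AddCircle.coe_nsmul, nsmul_eq_mul]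
  calc c * (k : ℝ) ^ (-τ) ≤ |(k : ℝ) * rpt (α i) - round ((k : ℝ) * rpt (α i))| := hi _
    _ = ‖(k • α) i‖ := h1.symm
    _ ≤ ‖k • α‖ := norm_le_pi_norm _ i

theorem ind_ae {d : ℕ} : ∀ᵐ α : Fin d → UnitAddCircle, ∀ k : Fin d → ℤ, k ≠ 0 → ∑ m, k m • α m ≠ 0 := by
  filter_upwards [(rpt_qmp d).ae (ae_indep d)] with α hα k hk h0
  have h1 : ∑ m, k m • α m = ((∑ m, (k m : ℝ) * rpt (α m) : ℝ) : UnitAddCircle) := by
    rw [show ((∑ m, (k m : ℝ) * rpt (α m) : ℝ) : UnitAddCircle) = ∑ m, (((k m : ℝ) * rpt (α m) : ℝ) : UnitAddCircle) from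
      map_sum (QuotientAddGroup.mk' (AddSubgroup.zmultiples (1 : ℝ))) _ _]
    refine Finset.sum_congr rfl fun m _ => ?_
    conv_lhs => rw [← coe_rpt (α m)]
    rw [← AddCircle.coe_zsmul, zsmul_eq_mul]
  rw [h1, AddCircle.coe_eq_zero_iff] at h0
  obtain ⟨n, hn⟩ := h0
  apply hα k hk n
  rw [← hn]
  simp

theorem mF_eq {d : ℕ} (n : Fin d → ℤ) (α : Fin d → UnitAddCircle) :
    UnitAddTorus.mFourier n α = ((∑ m, n m • α m).toCircle : ℂ) := by
  simp only [UnitAddTorus.mFourier, ContinuousMap.coe_mk, fourier_apply]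
  have : ∀ s : Finset (Fin d), ∏ i ∈ s, (((n i • α i).toCircle : Circle) : ℂ) = ((∑ m ∈ s, n m • α m).toCircle : ℂ) := by
    intro s
    classical
    induction s using Finset.induction_on with
    | empty => simp
    | insert i s hi ih => rw [Finset.prod_insert hi, Finset.sum_insert hi, AddCircle.toCircle_add, Circle.coe_mul, ih]
  exact this Finset.univ

theorem mF_ne' {d : ℕ} {α : Fin d → UnitAddCircle} (h : ∀ k : Fin d → ℤ, k ≠ 0 → ∑ m, k m • α m ≠ 0)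
    (n : Fin d → ℤ) (hn : n ≠ 0) : UnitAddTorus.mFourier n α ≠ 1 := by
  rw [mF_eq]
  intro h1
  have h2 : (∑ m, n m • α m).toCircle = 1 := by
    ext
    rw [h1]
    rfl
  rw [← AddCircle.toCircle_zero (T := (1 : ℝ))] at h2
  exact h n hn (AddCircle.injective_toCircle one_ne_zero h2)

theorem rot_erg {d : ℕ} {α : Fin d → UnitAddCircle} (h : ∀ k : Fin d → ℤ, k ≠ 0 → ∑ m, k m • α m ≠ 0) :
    Ergodic (fun θ : Fin d → UnitAddCircle => θ + α) volume :=
  rot_ergodic_aux (d := Fin d) α (mF_ne' h)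

/-- the eigenfunctions of the rotation are the characters -/
theorem rot_eig {d : ℕ} {α : Fin d → UnitAddCircle} (h : ∀ k : Fin d → ℤ, k ≠ 0 → ∑ m, k m • α m ≠ 0) (ξ : ℂ)
    (g : (Fin d → UnitAddCircle) → ℂ) (hg : Measurable g)
    (hinv : ∀ᵐ θ : Fin d → UnitAddCircle, g (θ + α) = ξ * g θ) :
    (∀ᵐ θ : Fin d → UnitAddCircle, g θ = 0) ∨ ∃ k : Fin d → ℤ, ∃ c : ℂ,
      fourier 1 (∑ m, k m • α m) = ξ ∧
        ∀ᵐ θ : Fin d → UnitAddCircle, g θ = c * fourier 1 (∑ m, k m • θ m) := by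
  rcases rot_eig_aux α (mF_ne' h) ξ g hg hinv with h3 | ⟨m, c, h3, h4⟩
  · exact Or.inl h3
  · refine Or.inr ⟨m, c, ?_, ?_⟩
    · rw [← h3, mF_eq, fourier_one]
    · filter_upwards [h4] with θ hθ
      rw [hθ, mF_eq, fourier_one]

end Pool.Agent.Helper82.QP
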